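import Pool.Agent.L7h49.PM.Def5
import Pool.Agent.L7h69.PM.Xing

set_option autoImplicit false

/-! Project PM, part XINGB: disjoint crossing geodesics in a disc. -/

namespace Pool.Agent.L7h47.PM

open Pool.Agent.L7h49.PM Pool.Agent.L7h66.PM Pool.Agent.L7h69.PM

lemma norm_pt_le (a b : ℝ) : ‖pt a b‖ ≤ |a| + |b| := by
  have h : pt a b = pt a 0 + pt 0 b := by
    rw [pt_add, add_zero, zero_add]
  have h1 : ‖pt a 0‖ = |a| := by
    rw [EuclideanSpace.norm_eq, Fin.sum_univ_two, pt_zero_apply, pt_one_apply, norm_zero,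
      Real.norm_eq_abs, zero_pow two_ne_zero, add_zero, sq_abs, Real.sqrt_sq_eq_abs]
  have h2 : ‖pt 0 b‖ = |b| := by
    rw [EuclideanSpace.norm_eq, Fin.sum_univ_two, pt_zero_apply, pt_one_apply, norm_zero,
      Real.norm_eq_abs, zero_pow two_ne_zero, zero_add, sq_abs, Real.sqrt_sq_eq_abs]
  rw [h]
  refine (norm_add_le _ _).trans ?_
  rw [h1, h2]

lemma roughB_sub {V : Type} {G : SimpleGraph V} {f : V → E2} {C D D' : ℝ} (hR : RoughB G f C D)
    (q : E2) (hq : ‖q‖ + D' ≤ D) : RoughB G (fun v => f v - q) C D' where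
  one := hR.one
  conn := hR.conn
  near := fun x y => by
    have h := hR.near x y
    have e : f x - q - (f y - q) = f x - f y := by abel
    show |‖f x - q - (f y - q)‖ - (G.dist x y : ℝ)| < C
    rw [e]
    exact h
  net := fun p hp => by
    obtain ⟨x, hx⟩ := hR.net (p + q) ((norm_add_le _ _).trans (by linarith))
    refine ⟨x, ?_⟩
    have e : f x - q - p = f x - (p + q) := by abel
    show ‖f x - q - p‖ < C
    rw [e]
    exact hx

theorem ellB {V : Type} {G : SimpleGraph V} {f : V → E2} {C D : ℝ} (hR : RoughB G f C D) {a c : V}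
    (p : G.Walk a c) (hp : p.length = G.dist a c) :
    ∀ w ∈ {v | v ∈ p.support}, ‖f w - f a‖ + ‖f w - f c‖ ≤ ‖f a - f c‖ + 3 * C := by
  intro w hw
  have h1 : ((G.dist a w : ℕ) : ℝ) + ((G.dist w c : ℕ) : ℝ) ≤ ((G.dist a c : ℕ) : ℝ) := by
    exact_mod_cast dist_split p hp hw
  have h2 := abs_lt.1 (hR.near w a)
  have h3 := abs_lt.1 (hR.near w c)
  have h4 := abs_lt.1 (hR.near a c)
  rw [SimpleGraph.dist_comm] at h2
  linarith [h2.1, h2.2, h3.1, h3.2, h4.1, h4.2]

theorem s_XINGB (hB : S_BUSQB) (hG2 : S_RG2) : S_XINGB := by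
  intro V G f C D hR R W L hL hD
  have hR' : RoughB G (fun v => f v - pt R W) C (4 * L) :=
    roughB_sub hR (pt R W) (by linarith [norm_pt_le R W])
  have hC := hR.one
  have hM : 10000 * C ≤ L := by
    have h1 := Real.add_one_le_exp (8000000 * C ^ 2)
    nlinarith
  obtain ⟨y0, y1, t0, t1, a, b, c, d, hy0, hy, hy1, ht0, ht, ht1, ha, hb, hc, hd, hlt⟩ :=
    hB V G (fun v => f v - pt R W) C L hR' hL
  obtain ⟨p, hp⟩ := hR.conn.exists_walk_length_eq_dist a c
  obtain ⟨q, hq⟩ := hR.conn.exists_walk_length_eq_dist b d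
  have tr : ∀ (v : V) (x y : ℝ), f v - pt (R + x) (W + y) = f v - pt R W - pt x y := by
    intro v x y
    rw [← pt_add]
    abel
  have tr0 : ∀ (v : V) (y : ℝ), f v - pt R (W + y) = f v - pt R W - pt 0 y := by
    intro v y
    rw [← tr, add_zero]
  have co0 : ∀ v : V, (f v - pt R W) 0 = f v 0 - R := by
    intro v
    rw [PiLp.sub_apply, pt_zero_apply]
  have co1 : ∀ v : V, (f v - pt R W) 1 = f v 1 - W := by
    intro v
    rw [PiLp.sub_apply, pt_one_apply]
  refine ⟨y0, y1, t0, t1, a, b, c, d, {v | v ∈ p.support}, {v | v ∈ q.support}, ?_, hy1, ht1⟩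
  refine ⟨by linarith, hy0, hy, by linarith, ht, ?_, ?_, ?_, ?_, p.start_mem_support,
    p.end_mem_support, q.start_mem_support, q.end_mem_support, p.connected_induce_support,
    q.connected_induce_support, ?_, ?_, ?_⟩
  · rw [tr0]
    exact ha
  · rw [tr0]
    exact hb
  · rw [tr]
    exact hc
  · rw [tr]
    exact hd
  · rw [Set.disjoint_left]
    intro w h1 h2
    have e1 := dist_split p hp h1
    have e2 := dist_split q hq h2
    have e3 := hR.conn.dist_triangle (u := a) (v := w) (w := d)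
    have e4 := hR.conn.dist_triangle (u := b) (v := w) (w := c)
    omega
  · intro w hw
    have h := hG2 L C y0 t1 (f a - pt R W) (f c - pt R W) (f w - pt R W) hC hM hy0 (by linarith)
      (by linarith) ht1 ha hc (ellB hR' p hp w hw)
    rw [co0, co1] at h
    exact h
  · intro w hw
    have h := hG2 L C y1 t0 (f b - pt R W) (f d - pt R W) (f w - pt R W) hC hM (by linarith) hy1
      ht0 (by linarith) hb hd (ellB hR' q hq w hw)
    rw [co0, co1] at h
    exact h

end Pool.Agent.L7h47.PM
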